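import Mathlib

/-!
Real orthogonal projections in complex Hilbert spaces and the operators `P + Q`, `P - Q`.
-/

open scoped ComplexOrder InnerProductSpace ComplexConjugate

noncomputable section

namespace H97R2.BP.T1H157

variable {K : Type} [NormedAddCommGroup K] [InnerProductSpace ℂ K] [CompleteSpace K]

theorem exists_proj (S : Submodule ℝ K) (hS : IsClosed (S : Set K)) :
    ∃ P : K →L[ℝ] K, (∀ ξ, P ξ ∈ S) ∧ (∀ ξ ∈ S, P ξ = ξ) ∧
      (∀ ξ η, (⟪P ξ, η⟫_ℂ).re = (⟪ξ, P η⟫_ℂ).re) ∧ (∀ ξ, ‖P ξ‖ ≤ ‖ξ‖) ∧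
      (∀ ξ, (∀ s ∈ S, (⟪ξ, s⟫_ℂ).re = 0) → P ξ = 0) := by
  let _ : InnerProductSpace ℝ K := InnerProductSpace.complexToReal
  have : CompleteSpace S := hS.completeSpace_coe
  refine ⟨S.starProjection, fun ξ => S.starProjection_apply_mem ξ, fun ξ h => ?_, fun ξ η => ?_,
    fun ξ => S.norm_starProjection_apply_le ξ, fun ξ h => ?_⟩
  · exact Submodule.starProjection_eq_self_iff.2 h
  · exact S.inner_starProjection_left_eq_right ξ η
  · rw [Submodule.starProjection_apply_eq_zero_iff, Submodule.mem_orthogonal']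
    intro s hs
    exact h s hs

/-- the data of the real projection -/
structure RP (P : K →L[ℝ] K) : Prop where
  idem : ∀ ξ, P (P ξ) = P ξ
  symm : ∀ ξ η, (⟪P ξ, η⟫_ℂ).re = (⟪ξ, P η⟫_ℂ).re
  nrm : ∀ ξ, ‖P ξ‖ ≤ ‖ξ‖

variable {P : K →L[ℝ] K}

omit [CompleteSpace K] in
theorem P_smul (P : K →L[ℝ] K) (c : ℂ) (ξ : K) :
    P (c • ξ) = (c.re : ℂ) • P ξ + (c.im : ℂ) • P (Complex.I • ξ) := by
  have h : c • ξ = c.re • ξ + c.im • (Complex.I • ξ) := by
    rw [← Complex.coe_smul c.re, ← Complex.coe_smul c.im, smul_smul, ← add_smul,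
      Complex.re_add_im]
  rw [h, map_add, map_smul, map_smul, Complex.coe_smul, Complex.coe_smul]

omit [CompleteSpace K] in
theorem P_I2 (P : K →L[ℝ] K) (ξ : K) : P (Complex.I • Complex.I • ξ) = - P ξ := by
  rw [smul_smul, Complex.I_mul_I, neg_one_smul, map_neg]

/-- `P + Q` -/
def opR (P : K →L[ℝ] K) (hP : ∀ ξ, ‖P ξ‖ ≤ ‖ξ‖) : K →L[ℂ] K :=
  LinearMap.mkContinuous
    { toFun := fun ξ => P ξ - Complex.I • P (Complex.I • ξ)
      map_add' := fun x y => by simp only [map_add, smul_add]; abel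
      map_smul' := fun c x => by
        have hc : c = c.re + c.im * Complex.I := (Complex.re_add_im c).symm
        have hi : Complex.I * Complex.I = -1 := Complex.I_mul_I
        have e1 : Complex.I • c • x = (Complex.I * c) • x := smul_smul _ _ _
        have e2 : (Complex.I * c).re = -c.im := by simp
        have e3 : (Complex.I * c).im = c.re := by simp
        simp only [RingHom.id_apply]
        rw [e1, P_smul P c, P_smul P (Complex.I * c), e2, e3]
        push_cast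
        match_scalars
        · linear_combination -hc
        · linear_combination Complex.I * hc + (c.im : ℂ) * hi } 2 (fun x => by
      show ‖P x - Complex.I • P (Complex.I • x)‖ ≤ 2 * ‖x‖
      have h1 := norm_sub_le (P x) (Complex.I • P (Complex.I • x))
      have h2 := hP x
      have h3 := hP (Complex.I • x)
      rw [norm_smul, Complex.norm_I, one_mul] at h1 h3
      linarith)

/-- `P - Q` -/
def opA (P : K →L[ℝ] K) (hP : ∀ ξ, ‖P ξ‖ ≤ ‖ξ‖) : K →L⋆[ℂ] K :=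
  LinearMap.mkContinuous
    { toFun := fun ξ => P ξ + Complex.I • P (Complex.I • ξ)
      map_add' := fun x y => by simp only [map_add, smul_add]; abel
      map_smul' := fun c x => by
        have hc : conj c = c.re - c.im * Complex.I := by
          apply Complex.ext <;> simp
        have hi : Complex.I * Complex.I = -1 := Complex.I_mul_I
        have e1 : Complex.I • c • x = (Complex.I * c) • x := smul_smul _ _ _
        have e2 : (Complex.I * c).re = -c.im := by simp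
        have e3 : (Complex.I * c).im = c.re := by simp
        rw [e1, P_smul P c, P_smul P (Complex.I * c), e2, e3]
        push_cast
        match_scalars
        · linear_combination -hc
        · linear_combination -Complex.I * hc + (c.im : ℂ) * hi } 2 (fun x => by
      show ‖P x + Complex.I • P (Complex.I • x)‖ ≤ 2 * ‖x‖
      have h1 := norm_add_le (P x) (Complex.I • P (Complex.I • x))
      have h2 := hP x
      have h3 := hP (Complex.I • x)
      rw [norm_smul, Complex.norm_I, one_mul] at h1 h3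
      linarith)

omit [CompleteSpace K] in
theorem opR_apply (hP : ∀ ξ, ‖P ξ‖ ≤ ‖ξ‖) (ξ : K) :
    opR P hP ξ = P ξ - Complex.I • P (Complex.I • ξ) := rfl

omit [CompleteSpace K] in
theorem opA_apply (hP : ∀ ξ, ‖P ξ‖ ≤ ‖ξ‖) (ξ : K) :
    opA P hP ξ = P ξ + Complex.I • P (Complex.I • ξ) := rfl

omit [CompleteSpace K] in
theorem re_PI (h : RP P) (ξ η : K) :
    (⟪Complex.I • P (Complex.I • ξ), η⟫_ℂ).re = (⟪ξ, Complex.I • P (Complex.I • η)⟫_ℂ).re := by
  have h1 : ⟪Complex.I • P (Complex.I • ξ), η⟫_ℂ = - ⟪P (Complex.I • ξ), Complex.I • η⟫_ℂ := by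
    rw [inner_smul_left, inner_smul_right, Complex.conj_I]; ring
  have h2 : ⟪ξ, Complex.I • P (Complex.I • η)⟫_ℂ = - ⟪Complex.I • ξ, P (Complex.I • η)⟫_ℂ := by
    rw [inner_smul_left, inner_smul_right, Complex.conj_I]; ring
  rw [h1, h2, Complex.neg_re, Complex.neg_re, h.symm]

omit [CompleteSpace K] in
theorem re_R (h : RP P) (ξ η : K) :
    (⟪opR P h.nrm ξ, η⟫_ℂ).re = (⟪ξ, opR P h.nrm η⟫_ℂ).re := by
  rw [opR_apply, opR_apply, inner_sub_left, inner_sub_right, Complex.sub_re, Complex.sub_re,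
    h.symm, re_PI h]

omit [CompleteSpace K] in
theorem re_A (h : RP P) (ξ η : K) :
    (⟪opA P h.nrm ξ, η⟫_ℂ).re = (⟪ξ, opA P h.nrm η⟫_ℂ).re := by
  rw [opA_apply, opA_apply, inner_add_left, inner_add_right, Complex.add_re, Complex.add_re,
    h.symm, re_PI h]

omit [CompleteSpace K] in
theorem R_sa (h : RP P) (ξ η : K) : ⟪opR P h.nrm ξ, η⟫_ℂ = ⟪ξ, opR P h.nrm η⟫_ℂ := by
  apply Complex.ext (re_R h ξ η)
  have h1 := re_R h ξ (Complex.I • η)
  rw [map_smul, inner_smul_right, inner_smul_right] at h1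
  simp at h1
  exact h1

omit [CompleteSpace K] in
theorem A_asym (h : RP P) (ξ η : K) : ⟪opA P h.nrm ξ, η⟫_ℂ = ⟪opA P h.nrm η, ξ⟫_ℂ := by
  have key : ∀ a b : K, (⟪opA P h.nrm a, b⟫_ℂ).re = (⟪opA P h.nrm b, a⟫_ℂ).re := by
    intro a b
    rw [re_A h, ← inner_conj_symm, Complex.conj_re]
  apply Complex.ext (key ξ η)
  have h1 := key ξ (Complex.I • η)
  rw [ContinuousLinearMap.map_smulₛₗ, inner_smul_right, inner_smul_left] at h1
  simp at h1
  exact h1

omit [CompleteSpace K] in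
theorem re_inner_P (h : RP P) (ξ : K) : (⟪ξ, P ξ⟫_ℂ).re = ‖P ξ‖ ^ 2 := by
  have h1 : (⟪ξ, P ξ⟫_ℂ).re = (⟪ξ, P (P ξ)⟫_ℂ).re := by rw [h.idem]
  rw [h1, ← h.symm]
  exact inner_self_eq_norm_sq (𝕜 := ℂ) (P ξ)

omit [CompleteSpace K] in
theorem re_inner_R (h : RP P) (ξ : K) :
    (⟪ξ, opR P h.nrm ξ⟫_ℂ).re = ‖P ξ‖ ^ 2 + ‖P (Complex.I • ξ)‖ ^ 2 := by
  have h2 : ⟪ξ, Complex.I • P (Complex.I • ξ)⟫_ℂ = - ⟪Complex.I • ξ, P (Complex.I • ξ)⟫_ℂ := by
    rw [inner_smul_left, inner_smul_right, Complex.conj_I]; ring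
  rw [opR_apply, inner_sub_right, Complex.sub_re, h2, Complex.neg_re, re_inner_P h, re_inner_P h]
  ring

omit [CompleteSpace K] in
theorem P_eq_self (h : RP P) {ξ : K} (hn : ‖ξ‖ ^ 2 ≤ ‖P ξ‖ ^ 2) : P ξ = ξ := by
  have h1 : ‖ξ - P ξ‖ ^ 2 ≤ 0 := by
    have h2 := norm_sub_sq (𝕜 := ℂ) ξ (P ξ)
    have h3 := re_inner_P h ξ
    have h4 : RCLike.re (⟪ξ, P ξ⟫_ℂ) = (⟪ξ, P ξ⟫_ℂ).re := rfl
    rw [h4, h3] at h2
    linarith
  have h2 : ‖ξ - P ξ‖ = 0 := by nlinarith [norm_nonneg (ξ - P ξ)]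
  rw [norm_eq_zero, sub_eq_zero] at h2
  exact h2.symm

omit [CompleteSpace K] in
/-- a vector orthogonal to a set of vectors whose span is dense vanishes -/
theorem eq_zero_of_dense {ξ : K} {S : Set K} (hd : ∀ ε : ℝ, 0 < ε → ∃ s ∈ S, ‖s - ξ‖ < ε)
    (h0 : ∀ s ∈ S, ⟪ξ, s⟫_ℂ = 0) : ξ = 0 := by
  by_contra hne
  have hp : 0 < ‖ξ‖ := norm_pos_iff.2 hne
  obtain ⟨s, hs, h1⟩ := hd ‖ξ‖ hp
  have h2 : ‖ξ‖ ^ 2 = (⟪ξ, ξ - s⟫_ℂ).re := by
    rw [inner_sub_right, h0 s hs, sub_zero]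
    exact (inner_self_eq_norm_sq (𝕜 := ℂ) ξ).symm
  have h3 : (⟪ξ, ξ - s⟫_ℂ).re ≤ ‖ξ‖ * ‖ξ - s‖ :=
    (Complex.re_le_norm _).trans (norm_inner_le_norm _ _)
  rw [norm_sub_rev] at h3
  nlinarith

end H97R2.BP.T1H157
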