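import Mathlib
import Pool.Agent.H97R2.BP.Defs
import Pool.Agent.H97R2.BP.Defs2
import Pool.Agent.H157R2.BP.Core

/-!
Existence of the data of Rieffel and van Daele.
-/

open scoped ComplexOrder InnerProductSpace ComplexConjugate TensorProduct
open Finset H759R2.Kad H710R2.DP

noncomputable section

namespace H97R2.BP

namespace T1H157

variable {K : Type} [NormedAddCommGroup K] [InnerProductSpace ℂ K] [CompleteSpace K]

/-- real and imaginary part -/
theorem re_im (N : VonNeumannAlgebra K) {x : K →L[ℂ] K} (hx : x ∈ N) :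
    ∃ a ∈ N, ∃ b ∈ N, star a = a ∧ star b = b ∧ x = a + Complex.I • b ∧
      star x = a - Complex.I • b := by
  have hs : star x ∈ N := star_mem hx
  have sm : ∀ (c : ℂ) (y : K →L[ℂ] K), y ∈ N → c • y ∈ N := fun c y hy =>
    N.toStarSubalgebra.smul_mem hy c
  refine ⟨(1 / 2 : ℂ) • (x + star x), sm _ _ (add_mem hx hs),
    (-Complex.I / 2 : ℂ) • (x - star x), sm _ _ (sub_mem hx hs), ?_, ?_, ?_, ?_⟩
  · rw [star_smul, star_add, star_star, add_comm (star x) x]
    congr 1
    simp
  · rw [star_smul, star_sub, star_star]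
    have : star (-Complex.I / 2 : ℂ) = Complex.I / 2 := by simp
    rw [this]
    module
  · have hi : Complex.I * Complex.I = -1 := Complex.I_mul_I
    rw [smul_smul]
    match_scalars
    · linear_combination (1 / 2 : ℂ) * hi
    · linear_combination (-1 / 2 : ℂ) * hi
  · have hi : Complex.I * Complex.I = -1 := Complex.I_mul_I
    rw [smul_smul]
    match_scalars
    · linear_combination (1 / 2 : ℂ) * hi
    · linear_combination (-1 / 2 : ℂ) * hi

/-- the vectors `x Ω`, `x ∈ N` selfadjoint, as a real subspace -/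
def S0 (N : VonNeumannAlgebra K) (Ω : K) : Submodule ℝ K where
  carrier := {η | ∃ x ∈ N, star x = x ∧ x Ω = η}
  add_mem' := by
    rintro _ _ ⟨x, hx, sx, rfl⟩ ⟨y, hy, sy, rfl⟩
    exact ⟨x + y, add_mem hx hy, by rw [star_add, sx, sy], rfl⟩
  zero_mem' := ⟨0, zero_mem _, star_zero _, rfl⟩
  smul_mem' := by
    rintro c _ ⟨x, hx, sx, rfl⟩
    refine ⟨(c : ℂ) • x, N.toStarSubalgebra.smul_mem hx _, ?_, ?_⟩
    · rw [star_smul, sx]
      congr 1
      simp
    · rw [ContinuousLinearMap.smul_apply, Complex.coe_smul]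

theorem mem_S0 {N : VonNeumannAlgebra K} {Ω η : K} :
    η ∈ S0 N Ω ↔ ∃ x ∈ N, star x = x ∧ x Ω = η := Iff.rfl

theorem inner_star (x : K →L[ℂ] K) (hx : star x = x) (ξ η : K) : ⟪x ξ, η⟫_ℂ = ⟪ξ, x η⟫_ℂ := by
  have h := ContinuousLinearMap.adjoint_inner_left x η ξ
  rw [← ContinuousLinearMap.star_eq_adjoint, hx] at h
  exact h

end T1H157

open T1H157 in
theorem bp_t1 : Z_t1 := by
  intro K _ _ _ N Ω hc hc'
  obtain ⟨P, hP1, hP2, hP3, hP4, hP5⟩ :=
    exists_proj (S0 N Ω).topologicalClosure (Submodule.isClosed_topologicalClosure _)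
  have hP : RP P := ⟨fun ξ => hP2 _ (hP1 ξ), hP3, hP4⟩
  -- vectors of the real subspace
  have f1 : ∀ x ∈ N, star x = x → P (x Ω) = x Ω := fun x hx sx =>
    hP2 _ (Submodule.le_topologicalClosure _ (mem_S0.2 ⟨x, hx, sx, rfl⟩))
  -- orthogonality
  have f2 : ∀ x : K →L[ℂ] K, x ∈ N.commutant → star x = x → P (Complex.I • x Ω) = 0 := by
    intro x' hx' sx'
    apply hP5
    intro s hs
    have hcl : IsClosed {s : K | (⟪Complex.I • x' Ω, s⟫_ℂ).re = 0} := by
      apply isClosed_eq _ continuous_const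
      fun_prop
    have hsub : (S0 N Ω : Set K) ⊆ {s : K | (⟪Complex.I • x' Ω, s⟫_ℂ).re = 0} := by
      rintro _ ⟨x, hx, sx, rfl⟩
      have hcm : x (x' Ω) = x' (x Ω) := by
        have h1 := (VonNeumannAlgebra.mem_commutant_iff.1 hx') x hx
        exact congrArg (fun z : K →L[ℂ] K => z Ω) h1
      have h2 : ⟪x' Ω, x Ω⟫_ℂ = conj ⟪x' Ω, x Ω⟫_ℂ := by
        rw [inner_conj_symm]
        rw [inner_star x' sx', ← hcm, ← inner_star x sx]
      show (⟪Complex.I • x' Ω, x Ω⟫_ℂ).re = 0
      rw [inner_smul_left]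
      have h3 : (⟪x' Ω, x Ω⟫_ℂ).im = 0 := by
        have := congrArg Complex.im h2
        rw [Complex.conj_im] at this
        linarith
      simp [h3]
    have := closure_minimal hsub hcl hs
    exact this
  have hi : Complex.I * Complex.I = -1 := Complex.I_mul_I
  refine ⟨opR P hP.nrm, opA P hP.nrm, ?_⟩
  constructor
  · exact R_sa hP
  · exact A_asym hP
  · intro ξ
    rw [re_inner_R hP]
    positivity
  · intro ξ
    rw [re_inner_R hP]
    have h1 := hP.nrm ξ
    have h2 := hP.nrm (Complex.I • ξ)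
    rw [norm_smul, Complex.norm_I, one_mul] at h2
    nlinarith [norm_nonneg (P ξ), norm_nonneg (P (Complex.I • ξ)), norm_nonneg ξ]
  · -- injectivity of R
    intro ξ hR
    have h1 := re_inner_R hP ξ
    rw [hR, inner_zero_right, Complex.zero_re] at h1
    have h2 : P ξ = 0 := by
      rw [← norm_eq_zero]
      nlinarith [sq_nonneg ‖P ξ‖, sq_nonneg ‖P (Complex.I • ξ)‖]
    have h3 : P (Complex.I • ξ) = 0 := by
      rw [← norm_eq_zero]
      nlinarith [sq_nonneg ‖P ξ‖, sq_nonneg ‖P (Complex.I • ξ)‖]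
    have h4 : ∀ x ∈ N, star x = x → ⟪ξ, x Ω⟫_ℂ = 0 := by
      intro x hx sx
      apply Complex.ext
      · rw [← f1 x hx sx, ← hP.symm, h2, inner_zero_left]
      · have h5 : (⟪Complex.I • ξ, x Ω⟫_ℂ).re = 0 := by
          rw [← f1 x hx sx, ← hP.symm, h3, inner_zero_left, Complex.zero_re]
        rw [inner_smul_left] at h5
        simpa using h5
    refine eq_zero_of_dense (S := {η | ∃ x ∈ N, x Ω = η}) ?_ ?_
    · intro ε hε
      obtain ⟨x, hx, h⟩ := hc ξ ε hε
      exact ⟨x Ω, ⟨x, hx, rfl⟩, h⟩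
    · rintro _ ⟨x, hx, rfl⟩
      obtain ⟨a, ha, b, hb, sa, sb, e, -⟩ := re_im N hx
      rw [e, ContinuousLinearMap.add_apply, ContinuousLinearMap.smul_apply, inner_add_right,
        inner_smul_right, h4 a ha sa, h4 b hb sb, mul_zero, add_zero]
  · intro ξ hR
    have h1 := re_inner_R hP ξ
    rw [hR, inner_smul_right] at h1
    have h1' : (2 * ⟪ξ, ξ⟫_ℂ).re = 2 * ‖ξ‖ ^ 2 := by
      have : (⟪ξ, ξ⟫_ℂ).re = ‖ξ‖ ^ 2 := inner_self_eq_norm_sq (𝕜 := ℂ) ξ
      rw [← this]; simp
    rw [h1'] at h1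
    have n1 := hP.nrm ξ
    have n2 := hP.nrm (Complex.I • ξ)
    have n3 : ‖Complex.I • ξ‖ = ‖ξ‖ := by rw [norm_smul, Complex.norm_I, one_mul]
    rw [n3] at n2
    have q1 : ‖P ξ‖ ^ 2 ≤ ‖ξ‖ ^ 2 := by gcongr
    have q2 : ‖P (Complex.I • ξ)‖ ^ 2 ≤ ‖ξ‖ ^ 2 := by gcongr
    have e1 : P ξ = ξ := P_eq_self hP (by linarith)
    have e2 : P (Complex.I • ξ) = Complex.I • ξ := P_eq_self hP (by rw [n3]; linarith)
    have h4 : ∀ x : K →L[ℂ] K, x ∈ N.commutant → star x = x → ⟪ξ, x Ω⟫_ℂ = 0 := by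
      intro x hx sx
      have a1 : (⟪ξ, Complex.I • x Ω⟫_ℂ).re = 0 := by
        rw [← e1, hP.symm, f2 x hx sx, inner_zero_right, Complex.zero_re]
      have a2 : (⟪Complex.I • ξ, Complex.I • x Ω⟫_ℂ).re = 0 := by
        rw [← e2, hP.symm, f2 x hx sx, inner_zero_right, Complex.zero_re]
      rw [inner_smul_right] at a1
      rw [inner_smul_left, inner_smul_right, Complex.conj_I] at a2
      apply Complex.ext
      · have : -Complex.I * (Complex.I * ⟪ξ, x Ω⟫_ℂ) = ⟪ξ, x Ω⟫_ℂ := by
          linear_combination -⟪ξ, x Ω⟫_ℂ * hi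
        rw [this] at a2
        simpa using a2
      · simpa using a1
    refine eq_zero_of_dense (S := {η | ∃ x ∈ N.commutant, x Ω = η}) ?_ ?_
    · intro ε hε
      obtain ⟨x, hx, h⟩ := hc' ξ ε hε
      exact ⟨x Ω, ⟨x, hx, rfl⟩, h⟩
    · rintro _ ⟨x, hx, rfl⟩
      obtain ⟨a, ha, b, hb, sa, sb, e, -⟩ := re_im N.commutant hx
      rw [e, ContinuousLinearMap.add_apply, ContinuousLinearMap.smul_apply, inner_add_right,
        inner_smul_right, h4 a ha sa, h4 b hb sb, mul_zero, add_zero]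
  · intro ξ
    simp only [opA_apply, opR_apply, map_add, map_sub, smul_add, smul_sub, P_I2, hP.idem,
      smul_smul, hi]
    simp only [neg_smul, one_smul, map_neg, hP.idem]
    module
  · intro ξ
    simp only [opA_apply, opR_apply, map_add, map_sub, smul_add, smul_sub, P_I2, hP.idem,
      smul_smul, hi]
    simp only [neg_smul, one_smul, map_neg, hP.idem]
    module
  · have g1 : P Ω = Ω := by simpa using f1 1 (one_mem _) (star_one _)
    have g2 : P (Complex.I • Ω) = 0 := by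
      simpa using f2 1 (one_mem _) (star_one _)
    rw [opR_apply, g1, g2, smul_zero, sub_zero]
  · have g1 : P Ω = Ω := by simpa using f1 1 (one_mem _) (star_one _)
    have g2 : P (Complex.I • Ω) = 0 := by
      simpa using f2 1 (one_mem _) (star_one _)
    rw [opA_apply, g1, g2, smul_zero, add_zero]
  · intro x hx
    obtain ⟨a, ha, b, hb, sa, sb, e1, e2⟩ := re_im N hx
    rw [e2, e1]
    have g1 := f1 a ha sa
    have g2 := f1 b hb sb
    simp only [ContinuousLinearMap.add_apply, ContinuousLinearMap.sub_apply,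
      ContinuousLinearMap.smul_apply, opA_apply, opR_apply, map_add, map_sub, smul_add, smul_sub,
      P_I2, g1, g2, smul_smul, hi]
    simp only [neg_smul, one_smul, map_neg, g1, g2]
    module
  · intro x hx
    obtain ⟨a, ha, b, hb, sa, sb, e1, e2⟩ := re_im N.commutant hx
    rw [e2, e1]
    have g1 := f2 a ha sa
    have g2 := f2 b hb sb
    simp only [ContinuousLinearMap.add_apply, ContinuousLinearMap.sub_apply,
      ContinuousLinearMap.smul_apply, opA_apply, opR_apply, map_add, map_sub, smul_add, smul_sub,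
      P_I2, g1, g2, smul_smul, hi]
    simp only [neg_smul, one_smul, map_neg, g1, g2]
    module
  · intro ξ hA ε hε
    have h1 : P ξ = ξ := by
      rw [opA_apply, opR_apply] at hA
      have h2 : (2 : ℂ) • P ξ = (2 : ℂ) • ξ := by
        have h3 : (2 : ℂ) • P ξ = P ξ + Complex.I • P (Complex.I • ξ) +
            (P ξ - Complex.I • P (Complex.I • ξ)) := by module
        rw [h3, hA]; module
      exact smul_right_injective K (by norm_num : (2 : ℂ) ≠ 0) h2
    have h2 : ξ ∈ closure (S0 N Ω : Set K) := by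
      have := hP1 ξ
      rw [h1] at this
      exact this
    obtain ⟨_, ⟨x, hx, sx, rfl⟩, h3⟩ := Metric.mem_closure_iff.1 h2 ε hε
    refine ⟨x, hx, sx, ?_⟩
    rw [dist_comm, dist_eq_norm] at h3
    exact h3

end H97R2.BP
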